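import Pool.Agent.H25.EE.TargetsB

/-! Board `ee_modules`, row DEGH: degree and length of the minors. -/

set_option autoImplicit false

namespace Pool.Agent.H1.EE5.DEGH

open Pool.Agent.H25.EE Polynomial Finset

private lemma plen_eq (P : ℤ[X]) (S : Finset ℕ) (h : P.support ⊆ S) :
    plen P = ∑ i ∈ S, |(P.coeff i : ℝ)| := by
  unfold plen
  apply Finset.sum_subset h
  intro i _ hi
  rw [Polynomial.notMem_support_iff] at hi
  rw [hi]; simp

private lemma plen_nonneg (P : ℤ[X]) : 0 ≤ plen P :=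
  Finset.sum_nonneg fun _ _ => abs_nonneg _

private lemma plen_zero : plen 0 = 0 := by simp [plen]

private lemma plen_neg (P : ℤ[X]) : plen (-P) = plen P := by
  simp [plen]

private lemma plen_one : plen 1 = 1 := by
  have h : (1 : ℤ[X]).support ⊆ {0} := by
    intro i hi
    rw [Polynomial.mem_support_iff, Polynomial.coeff_one] at hi
    simp only [Finset.mem_singleton]
    by_contra hne
    exact hi (if_neg hne)
  rw [plen_eq 1 {0} h]; simp

private lemma plen_monomial (n : ℕ) (a : ℤ) : plen (monomial n a) = |(a : ℝ)| := by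
  rw [plen_eq _ {n} (Polynomial.support_monomial_subset n a)]
  simp

private lemma plen_add (P Q : ℤ[X]) : plen (P + Q) ≤ plen P + plen Q := by
  rw [plen_eq (P + Q) (P.support ∪ Q.support) Polynomial.support_add,
    plen_eq P (P.support ∪ Q.support) Finset.subset_union_left,
    plen_eq Q (P.support ∪ Q.support) Finset.subset_union_right, ← Finset.sum_add_distrib]
  apply Finset.sum_le_sum
  intro i _
  rw [Polynomial.coeff_add]
  push_cast
  exact abs_add_le _ _

private lemma plen_sum {ι : Type*} (s : Finset ι) (f : ι → ℤ[X]) :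
    plen (∑ i ∈ s, f i) ≤ ∑ i ∈ s, plen (f i) := by
  classical
  induction s using Finset.induction_on with
  | empty => simp [plen_zero]
  | insert a s ha ih =>
    rw [Finset.sum_insert ha, Finset.sum_insert ha]
    exact (plen_add _ _).trans (by linarith)

private lemma plen_mul (P Q : ℤ[X]) : plen (P * Q) ≤ plen P * plen Q := by
  rw [Polynomial.mul_eq_sum_sum]
  refine (plen_sum _ _).trans ?_
  unfold Polynomial.sum
  calc ∑ i ∈ P.support, plen (∑ j ∈ Q.support, (monomial (i + j)) (P.coeff i * Q.coeff j))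
      ≤ ∑ i ∈ P.support, ∑ j ∈ Q.support, |(P.coeff i : ℝ)| * |(Q.coeff j : ℝ)| := by
        apply Finset.sum_le_sum
        intro i _
        refine (plen_sum _ _).trans (Finset.sum_le_sum fun j _ => ?_)
        rw [plen_monomial]
        push_cast
        rw [abs_mul]
    _ = plen P * plen Q := by
        unfold plen
        rw [Finset.sum_mul_sum]

private lemma plen_prod {ι : Type*} (s : Finset ι) (f : ι → ℤ[X]) :
    plen (∏ i ∈ s, f i) ≤ ∏ i ∈ s, plen (f i) := by
  classical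
  induction s using Finset.induction_on with
  | empty => simp [plen_one]
  | insert a s ha ih =>
    rw [Finset.prod_insert ha, Finset.prod_insert ha]
    exact (plen_mul _ _).trans (mul_le_mul_of_nonneg_left ih (plen_nonneg _))

/-- degree and length of a determinant -/
private lemma det_bound {ι : Type} [Fintype ι] [DecidableEq ι] (M : Matrix ι ι ℤ[X])
    (N : ℕ) (B : ℝ) (hN : ∀ σ : Equiv.Perm ι, ∑ i, (M (σ i) i).natDegree ≤ N)
    (hB : ∀ σ : Equiv.Perm ι, ∏ i, plen (M (σ i) i) ≤ B) :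
    M.det.natDegree ≤ N ∧ plen M.det ≤ (Fintype.card ι).factorial * B := by
  rw [Matrix.det_apply]
  constructor
  · apply Polynomial.natDegree_sum_le_of_forall_le
    intro σ _
    have h1 : (∏ i, M (σ i) i).natDegree ≤ N :=
      (Polynomial.natDegree_prod_le _ _).trans (hN σ)
    rcases Int.units_eq_one_or (Equiv.Perm.sign σ) with h | h
    · rw [h, one_smul]; exact h1
    · rw [h, Units.neg_smul, one_smul, Polynomial.natDegree_neg]; exact h1
  · refine (plen_sum _ _).trans ?_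
    calc ∑ σ : Equiv.Perm ι, plen (Equiv.Perm.sign σ • ∏ i, M (σ i) i)
        ≤ ∑ _σ : Equiv.Perm ι, B := by
          apply Finset.sum_le_sum
          intro σ _
          have h1 : plen (∏ i, M (σ i) i) ≤ B := (plen_prod _ _).trans (hB σ)
          rcases Int.units_eq_one_or (Equiv.Perm.sign σ) with h | h
          · rw [h, one_smul]; exact h1
          · rw [h, Units.neg_smul, one_smul, plen_neg]; exact h1
      _ = (Fintype.card ι).factorial * B := by
          rw [Finset.sum_const, Finset.card_univ, Fintype.card_perm, nsmul_eq_mul]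

/-- sum over the chosen columns -/
private lemma sum_col (S T : Finset Idx) (g : {a // a ∈ S} → {b // b ∈ T})
    (hg : Function.Injective g) (f : Idx → ℝ) (hf : ∀ b, 0 ≤ f b) :
    ∑ a, f (g a).1 ≤ ∑ b ∈ T, f b := by
  classical
  rw [← Finset.sum_coe_sort T f]
  rw [← Finset.sum_image (s := univ) (g := g) (f := fun b : {b // b ∈ T} => f b.1)
    (fun a _ b _ h => hg h)]
  exact Finset.sum_le_sum_of_subset_of_nonneg (Finset.subset_univ _) fun b _ _ => hf _

theorem pf_DEGH (hLEN : T_LEN) (hEXB : T_EXB) (hCARD : T_CARD) (hSUMS : T_SUMS) : T_DEGH := by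
  intro π
  obtain ⟨C, hC, hL⟩ := hLEN π
  -- threshold
  refine ⟨max (10 ^ 6) (⌈Real.exp (C * 10 ^ 8)⌉₊), ?_⟩
  intro J hJ g hg
  have hJ6 : 10 ^ 6 ≤ J := le_trans (le_max_left _ _) hJ
  have hJC : Real.exp (C * 10 ^ 8) ≤ (J : ℝ) :=
    (Nat.le_ceil _).trans (by exact_mod_cast le_trans (le_max_right _ _) hJ)
  have hJ1 : 1 ≤ J := le_trans (by norm_num) hJ6
  have hJ2 : 2 ≤ J := le_trans (by norm_num) hJ6
  have hJR : (10 : ℝ) ^ 6 ≤ J := by exact_mod_cast hJ6
  have hJ0 : (0 : ℝ) < J := lt_of_lt_of_le (by norm_num) hJR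
  have hlogC : C * 10 ^ 8 ≤ Real.log J := by
    rw [Real.le_log_iff_exp_le hJ0]; exact hJC
  have hlog1 : 1 ≤ Real.log J := by
    rw [Real.le_log_iff_exp_le hJ0]
    have := Real.exp_one_lt_d9
    linarith
  -- sums
  obtain ⟨hr1, hr2⟩ := hSUMS s0 J (by unfold s0; norm_num) (by unfold s0; norm_num) hJ1
  obtain ⟨hc1, hc2⟩ := hSUMS s1 J (by unfold s1; norm_num) (by unfold s1; norm_num) hJ1
  have hcard := hCARD.1 J hJ1
  have hcardI : (Fintype.card {a // a ∈ Ix s0 J} : ℝ) = ((Ix s0 J).card : ℝ) := by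
    rw [Fintype.card_coe]
  have hs0 : ((s0 : ℚ) : ℝ) = 1 / 1000 := by unfold s0; norm_num
  have hs1 : ((s1 : ℚ) : ℝ) = 1001 / 1000000 := by unfold s1; norm_num
  rw [hs0] at hr1 hr2
  rw [hs1] at hc1 hc2
  -- the sum over the rows does not depend on the permutation
  have hrow : ∀ (f : Idx → ℝ) (σ : Equiv.Perm {a // a ∈ Ix s0 J}),
      ∑ i, f (σ i).1 = ∑ a ∈ Ix s0 J, f a := by
    intro f σ
    rw [← Finset.sum_coe_sort (Ix s0 J) f]
    exact Equiv.sum_comp σ (fun i : {a // a ∈ Ix s0 J} => f i.1)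
  have hcol : ∀ (f : Idx → ℝ), (∀ b, 0 ≤ f b) →
      ∑ i, f (g i).1 ≤ ∑ b ∈ Ix s1 J, f b := fun f hf =>
    sum_col (Ix s0 J) (Ix s1 J) g hg f hf
  have hP6 : (0 : ℝ) < (J : ℝ) ^ 6 := by positivity
  have hP4 : (0 : ℝ) < (J : ℝ) ^ 4 := by positivity
  have hJJ : (10 : ℝ) ^ 12 ≤ (J : ℝ) ^ 2 := by nlinarith
  have h64 : (10 : ℝ) ^ 12 * (J : ℝ) ^ 4 ≤ (J : ℝ) ^ 6 := by
    have : (J : ℝ) ^ 6 = (J : ℝ) ^ 2 * (J : ℝ) ^ 4 := by ring
    rw [this]
    exact mul_le_mul_of_nonneg_right hJJ hP4.le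
  -- degree
  have hdeg : ∀ σ : Equiv.Perm {a // a ∈ Ix s0 J},
      ((∑ i, (mm π J (σ i).1 (g i).1).natDegree : ℕ) : ℝ) ≤ bN J := by
    intro σ
    have h1 : ((∑ i, (mm π J (σ i).1 (g i).1).natDegree : ℕ) : ℝ) ≤
        ∑ i : {a // a ∈ Ix s0 J}, ((((σ i).1.2 : ℝ) + ((((σ i).1.1.1 : ℝ)) ^ 2 +
          ((σ i).1.1.2 : ℝ) ^ 2)) + (((g i).1.2 : ℝ) + ((((g i).1.1.1 : ℝ)) ^ 2 +
          ((g i).1.1.2 : ℝ) ^ 2)) + 1) := by
      push_cast
      apply Finset.sum_le_sum
      intro i _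
      have h2 := (hL J hJ2 (σ i).1 (σ i).2 (g i).1 (g i).2).1
      have h3 := hEXB (σ i).1 (g i).1
      have h4 : ((mm π J (σ i).1 (g i).1).natDegree : ℝ) ≤
          (σ i).1.2 + (g i).1.2 + (EX (σ i).1 (g i).1 : ℝ) := by exact_mod_cast h2
      linarith
    rw [Finset.sum_add_distrib, Finset.sum_add_distrib] at h1
    have h5 := hrow (fun a => (a.2 : ℝ) + (((a.1.1 : ℝ)) ^ 2 + (a.1.2 : ℝ) ^ 2)) σ
    have h6 := hcol (fun a => (a.2 : ℝ) + (((a.1.1 : ℝ)) ^ 2 + (a.1.2 : ℝ) ^ 2))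
      (fun b => by positivity)
    rw [Finset.sum_add_distrib (s := Ix s0 J)] at h5
    rw [Finset.sum_add_distrib (s := Ix s1 J)] at h6
    have h7 : ∑ _i : {a // a ∈ Ix s0 J}, (1 : ℝ) = ((Ix s0 J).card : ℝ) := by
      rw [Finset.sum_const, Finset.card_univ, Fintype.card_coe, nsmul_eq_mul, mul_one]
    rw [h7] at h1
    unfold bN
    rw [h5] at h1
    nlinarith
  -- product of the lengths
  set B : ℝ := Real.exp ((1 / 1000 : ℝ) ^ 2 * (128 / 225) * (J : ℝ) ^ 6 * Real.log J +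
    (1001 / 1000000 : ℝ) ^ 2 * (128 / 225) * (J : ℝ) ^ 6 * Real.log J +
    2 / 1125 * (J : ℝ) ^ 4 * (C * (J : ℝ) ^ 2)) with hBdef
  have hlen : ∀ σ : Equiv.Perm {a // a ∈ Ix s0 J},
      ∏ i, plen (mm π J (σ i).1 (g i).1) ≤ B := by
    intro σ
    calc ∏ i, plen (mm π J (σ i).1 (g i).1)
        ≤ ∏ i : {a // a ∈ Ix s0 J}, Real.exp ((((σ i).1.2 : ℝ) + (g i).1.2) * Real.log J +
            C * (J : ℝ) ^ 2) := by
          apply Finset.prod_le_prod
          · intro i _; exact plen_nonneg _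
          · intro i _
            exact (hL J hJ2 (σ i).1 (σ i).2 (g i).1 (g i).2).2
      _ = Real.exp (∑ i : {a // a ∈ Ix s0 J}, ((((σ i).1.2 : ℝ) + (g i).1.2) * Real.log J +
            C * (J : ℝ) ^ 2)) := by rw [Real.exp_sum]
      _ ≤ B := by
          rw [hBdef]
          apply Real.exp_le_exp.mpr
          rw [Finset.sum_add_distrib, ← Finset.sum_mul, Finset.sum_add_distrib]
          have h5 := hrow (fun a => (a.2 : ℝ)) σ
          have h6 := hcol (fun a => (a.2 : ℝ)) (fun b => by positivity)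
          have h7 : ∑ _i : {a // a ∈ Ix s0 J}, (C * (J : ℝ) ^ 2) =
              ((Ix s0 J).card : ℝ) * (C * (J : ℝ) ^ 2) := by
            rw [Finset.sum_const, Finset.card_univ, Fintype.card_coe, nsmul_eq_mul]
          rw [h7]
          have h8 : ((Ix s0 J).card : ℝ) * (C * (J : ℝ) ^ 2) ≤
              2 / 1125 * (J : ℝ) ^ 4 * (C * (J : ℝ) ^ 2) :=
            mul_le_mul_of_nonneg_right hcard (by positivity)
          have h9 : (∑ i : {a // a ∈ Ix s0 J}, ((σ i).1.2 : ℝ) +
              ∑ i : {a // a ∈ Ix s0 J}, ((g i).1.2 : ℝ)) * Real.log J ≤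
              ((1 / 1000 : ℝ) ^ 2 * (128 / 225) * (J : ℝ) ^ 6 +
              (1001 / 1000000 : ℝ) ^ 2 * (128 / 225) * (J : ℝ) ^ 6) * Real.log J := by
            apply mul_le_mul_of_nonneg_right _ (by linarith)
            rw [h5]
            linarith
          linarith
  -- the factorial
  have hfac : ((Fintype.card {a // a ∈ Ix s0 J}).factorial : ℝ) ≤
      Real.exp (2 / 1125 * (J : ℝ) ^ 4 * (4 * Real.log J)) := by
    set L := Fintype.card {a // a ∈ Ix s0 J} with hLdef
    have hL4 : (L : ℝ) ≤ 2 / 1125 * (J : ℝ) ^ 4 := by rw [hcardI]; exact hcard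
    have hL4' : (L : ℝ) ≤ (J : ℝ) ^ 4 := by linarith
    calc ((L.factorial : ℕ) : ℝ) ≤ ((L ^ L : ℕ) : ℝ) := by
          exact_mod_cast Nat.factorial_le_pow L
      _ = (L : ℝ) ^ L := by push_cast; ring
      _ ≤ ((J : ℝ) ^ 4) ^ L := pow_le_pow_left₀ (by positivity) hL4' L
      _ = Real.exp ((L : ℝ) * (4 * Real.log J)) := by
          rw [← Real.exp_log (show (0 : ℝ) < ((J : ℝ) ^ 4) ^ L by positivity), Real.log_pow,
            Real.log_pow]
          push_cast
          ring_nf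
      _ ≤ Real.exp (2 / 1125 * (J : ℝ) ^ 4 * (4 * Real.log J)) := by
          apply Real.exp_le_exp.mpr
          exact mul_le_mul_of_nonneg_right hL4 (by linarith)
  -- the determinant
  obtain ⟨hd1, hd2⟩ := det_bound (Matrix.of fun a a' : {a // a ∈ Ix s0 J} =>
      mm π J a.1 (g a').1) ⌊bN J⌋₊ B
    (fun σ => Nat.le_floor (by simpa using hdeg σ))
    (fun σ => by simpa using hlen σ)
  refine ⟨?_, ?_⟩
  · have hb : (0 : ℝ) ≤ bN J := by unfold bN; positivity
    calc ((DD π J g).natDegree : ℝ) ≤ (⌊bN J⌋₊ : ℝ) := by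
          unfold DD
          exact_mod_cast hd1
      _ ≤ bN J := Nat.floor_le hb
  · calc plen (DD π J g) ≤ (Fintype.card {a // a ∈ Ix s0 J}).factorial * B := by
          unfold DD
          exact hd2
      _ ≤ Real.exp (2 / 1125 * (J : ℝ) ^ 4 * (4 * Real.log J)) * B :=
          mul_le_mul_of_nonneg_right hfac (Real.exp_pos _).le
      _ ≤ Real.exp (bH J) := by
          rw [hBdef, ← Real.exp_add]
          apply Real.exp_le_exp.mpr
          unfold bH
          have e1 : 2 / 1125 * (J : ℝ) ^ 4 * (C * (J : ℝ) ^ 2) =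
              2 / 1125 * (J : ℝ) ^ 6 * C := by ring
          rw [e1]
          have e2 : (J : ℝ) ^ 6 * (C * 10 ^ 8) ≤ (J : ℝ) ^ 6 * Real.log J :=
            mul_le_mul_of_nonneg_left hlogC hP6.le
          have e3 : (10 : ℝ) ^ 12 * (J : ℝ) ^ 4 * Real.log J ≤ (J : ℝ) ^ 6 * Real.log J :=
            mul_le_mul_of_nonneg_right h64 (by linarith)
          have e4 : 0 ≤ (J : ℝ) ^ 6 * Real.log J := by positivity
          nlinarith

end Pool.Agent.H1.EE5.DEGH
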