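import Pool.Agent.H25.EE.TargetsA
import Pool.Agent.H25.EE.TargetsB

/-! Board `ee_modules`, row FOUR. -/

set_option autoImplicit false

namespace Pool.Agent.H1.EE5.FOUR

open Pool.Agent.H25.EE Polynomial Finset

theorem pf_FOUR (hFTF : T_FTF) (hFIN : T_FIN) : T_FOUR := fun pi => hFIN (hFTF pi)

end Pool.Agent.H1.EE5.FOUR
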